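import Pool.Graph.R_seed8.H641R2.GD.Basic

set_option autoImplicit false

/-!
# Two Hamiltonian paths assembled from segments and connectors
-/

namespace Pool.Agent.KS6_14.TP

open Pool.Agent.H641R2.GlobDom

/-- labels: connectors are `(0, k, j)` with `j < 12` -/
abbrev Lb : Type := ℕ × ℕ × ℕ

/-- a connector along the first path -/
def c1 (k : ℕ) : List Lb :=
  [(0, k, 0), (0, k, 1), (0, k, 2), (0, k, 3), (0, k, 4), (0, k, 5), (0, k, 6), (0, k, 7),
    (0, k, 8), (0, k, 9), (0, k, 10), (0, k, 11)]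

/-- a connector along the second path -/
def c2 (k : ℕ) : List Lb :=
  [(0, k, 2), (0, k, 0), (0, k, 3), (0, k, 1), (0, k, 5), (0, k, 7), (0, k, 4), (0, k, 6),
    (0, k, 10), (0, k, 8), (0, k, 11), (0, k, 9)]

/-- the segments of the list `S`, separated by connectors -/
def join (c : ℕ → List Lb) (S : List (List Lb)) (K : ℕ) : List Lb :=
  (List.range K).flatMap (fun k => c k ++ S.getD k []) ++ c K

theorem flatMap_getD (S : List (List Lb)) {K : ℕ} (hK : S.length ≤ K) :
    (List.range K).flatMap (fun k => S.getD k []) = S.flatten := by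
  induction S using List.reverseRecOn generalizing K with
  | nil =>
    simp
  | append_singleton S s ih =>
    rw [List.length_append, List.length_singleton] at hK
    obtain ⟨r, rfl⟩ : ∃ r, K = S.length + 1 + r := ⟨K - (S.length + 1), by omega⟩
    rw [List.range_add (n := S.length + 1), List.flatMap_append, List.range_succ,
      List.flatMap_append, List.flatten_append]
    have h1 : (List.range S.length).flatMap (fun k => (S ++ [s]).getD k []) = S.flatten := by
      rw [← ih (le_refl S.length)]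
      rw [List.flatMap_def, List.flatMap_def]
      congr 1
      apply List.map_congr_left
      intro k hk
      rw [List.mem_range] at hk
      rw [List.getD_append _ _ _ _ hk]
    rw [h1]
    have h2 : List.flatMap (fun k => (S ++ [s]).getD k [])
        (List.map (fun x => S.length + 1 + x) (List.range r)) = [] := by
      rw [List.flatMap_eq_nil_iff]
      intro k hk
      rw [List.mem_map] at hk
      obtain ⟨a, _, rfl⟩ := hk
      rw [List.getD_eq_default]
      simp
    rw [h2]
    simp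

theorem join_perm (c : ℕ → List Lb) (S : List (List Lb)) {K : ℕ} (hK : S.length ≤ K) :
    (join c S K).Perm ((List.range (K + 1)).flatMap c ++ S.flatten) := by
  unfold join
  rw [← flatMap_getD S hK, List.range_succ, List.flatMap_append]
  have h1 := List.flatMap_append_perm (List.range K) c (fun k => S.getD k [])
  refine (h1.symm.append_right _).trans ?_
  simp only [List.append_assoc]
  refine List.Perm.append_left _ ?_
  simpa using List.perm_append_comm

theorem infix_conn (c : ℕ → List Lb) (S : List (List Lb)) {K k : ℕ} (hk : k ≤ K) :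
    c k <:+: join c S K := by
  unfold join
  rcases hk.lt_or_eq with hk | rfl
  · have h1 : (fun k => c k ++ S.getD k []) k <:+:
        (List.range K).flatMap (fun k => c k ++ S.getD k []) :=
      infix_flatMap (f := fun k => c k ++ S.getD k []) (List.mem_range.2 hk)
    exact ((List.prefix_append (c k) (S.getD k [])).isInfix.trans h1).trans
      (List.prefix_append _ _).isInfix
  · exact (List.suffix_append _ _).isInfix

theorem infix_seg (c : ℕ → List Lb) (S : List (List Lb)) {K : ℕ} (hK : S.length ≤ K)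
    {s : List Lb} (hs : s ∈ S) : s <:+: join c S K := by
  obtain ⟨k, hk, rfl⟩ := List.getElem_of_mem hs
  unfold join
  have h1 : (fun k => c k ++ S.getD k []) k <:+:
      (List.range K).flatMap (fun k => c k ++ S.getD k []) :=
    infix_flatMap (f := fun k => c k ++ S.getD k []) (List.mem_range.2 (by omega))
  have h2 : S[k] <:+: c k ++ S.getD k [] := by
    rw [List.getD_eq_getElem _ _ hk]
    exact (List.suffix_append _ _).isInfix
  exact (h2.trans h1).trans (List.prefix_append _ _).isInfix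

theorem chain_join {R : Lb → Lb → Prop} (c : ℕ → List Lb) (S : List (List Lb)) (K : ℕ)
    (hne : ∀ k, c k ≠ []) (h0 : (c 0).IsChain R)
    (h : ∀ k < K, (c k ++ S.getD k [] ++ c (k + 1)).IsChain R) : (join c S K).IsChain R := by
  unfold join
  induction K with
  | zero => simpa using h0
  | succ K ih =>
    have h1 := ih (fun k hk => h k (by omega))
    have h2 := h K (by omega)
    rw [List.append_assoc] at h2
    have h3 := h1.append_overlap h2 (hne K)
    rw [List.range_succ, List.flatMap_append]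
    simpa using h3

theorem run_join {D : Finset ℕ} {f : Lb → ℕ} (c : ℕ → List Lb) (S : List (List Lb)) (K : ℕ)
    (hc : ∀ k ≤ K, ∀ e, Run D e ((c k).map f) 0)
    (hS : ∀ k < K, ∃ e, Run D 0 ((S.getD k []).map f) e) :
    Run D 1 ((join c S K).map f) 0 := by
  unfold join
  have key : ∀ K' ≤ K, ∃ e, Run D 1 (((List.range K').flatMap
      (fun k => c k ++ S.getD k [])).map f) e := by
    intro K'
    induction K' with
    | zero => intro _; exact ⟨1, by simp [Run]⟩
    | succ K' ih =>
      intro hK'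
      obtain ⟨e, he⟩ := ih (by omega)
      obtain ⟨e', he'⟩ := hS K' (by omega)
      refine ⟨e', ?_⟩
      rw [List.range_succ, List.flatMap_append, List.map_append]
      refine he.append ?_
      simp only [List.flatMap_cons, List.flatMap_nil, List.append_nil, List.map_append]
      exact (hc K' (by omega) e).append he'
  obtain ⟨e, he⟩ := key K le_rfl
  rw [List.map_append]
  exact he.append (hc K le_rfl e)

/-- `T` meets all triples of consecutive entries of `l` -/
def HitW (T : Finset Lb) (l : List Lb) : Prop :=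
  ∀ x y z, [x, y, z] <:+: l → x ∈ T ∨ y ∈ T ∨ z ∈ T

theorem HitW.sub {T : Finset Lb} {l l' : List Lb} (h : HitW T l) (h' : l' <:+: l) : HitW T l' :=
  fun x y z hx => h x y z (hx.trans h')

theorem run_of_hitW {D : Finset ℕ} {f : Lb → ℕ} {T : Finset Lb} :
    ∀ (l pre : List Lb), (∀ x ∈ l, f x ∈ D ↔ x ∈ T) → pre.length ≤ 2 → (∀ x ∈ pre, x ∉ T) →
      HitW T (pre ++ l) → ∃ e, Run D pre.length (l.map f) e
  | [], pre, _, _, _, _ => ⟨pre.length, by simp [Run]⟩
  | v :: l, pre, hf, hp, hpT, hW => by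
    by_cases hv : v ∈ T
    · obtain ⟨e, he⟩ := run_of_hitW (D := D) (f := f) l [] (fun x hx => hf x (by simp [hx]))
        (by simp) (by simp) (hW.sub ⟨pre ++ [v], [], by simp⟩)
      refine ⟨e, ?_⟩
      simp only [List.map_cons, Run]
      rw [if_pos ((hf v (by simp)).2 hv)]
      simpa using he
    · have h1 : pre.length ≤ 1 := by
        by_contra h1
        have h2 : pre.length = 2 := by omega
        obtain ⟨a, b, rfl⟩ := List.length_eq_two.1 h2
        rcases hW a b v ⟨[], l, by simp⟩ with h | h | h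
        · exact hpT a (by simp) h
        · exact hpT b (by simp) h
        · exact hv h
      obtain ⟨e, he⟩ := run_of_hitW (D := D) (f := f) l (pre ++ [v])
        (fun x hx => hf x (by simp [hx])) (by simp; omega)
        (by
          intro x hx
          rw [List.mem_append, List.mem_singleton] at hx
          rcases hx with hx | rfl
          · exact hpT x hx
          · exact hv) (by simpa using hW)
      refine ⟨e, ?_⟩
      simp only [List.map_cons, Run]
      rw [if_neg (fun h => hv ((hf v (by simp)).1 h))]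
      refine ⟨h1, ?_⟩
      simpa using he

/-! ### Relations of consecutive entries -/

/-- consecutive entries of the first path -/
def R1 (A : Lb → Lb → Prop) (x y : Lb) : Prop :=
  (x.1 = 0 ∧ y.1 = 0 ∧ x.2.1 = y.2.1 ∧ y.2.2 = x.2.2 + 1) ∨
  (x.1 = 0 ∧ x.2.2 = 11 ∧ (y.1 ≠ 0 ∨ (y.2.2 = 0 ∧ x.2.1 ≠ y.2.1))) ∨
  (y.1 = 0 ∧ y.2.2 = 0 ∧ x.1 ≠ 0) ∨ (x.1 ≠ 0 ∧ y.1 ≠ 0 ∧ A x y)

/-- consecutive entries of the second path -/
def R2 (A : Lb → Lb → Prop) (x y : Lb) : Prop :=
  (x.1 = 0 ∧ y.1 = 0 ∧ x.2.1 = y.2.1 ∧ (x.2.2 + 2 ≤ y.2.2 ∨ y.2.2 + 2 ≤ x.2.2)) ∨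
  (x.1 = 0 ∧ x.2.2 = 9 ∧ (y.1 ≠ 0 ∨ (y.2.2 = 2 ∧ x.2.1 ≠ y.2.1))) ∨
  (y.1 = 0 ∧ y.2.2 = 2 ∧ x.1 ≠ 0) ∨ (x.1 ≠ 0 ∧ y.1 ≠ 0 ∧ A x y)

theorem R_disj {A1 A2 : Lb → Lb → Prop} (hA : ∀ x y, A1 x y → ¬ A2 x y ∧ ¬ A2 y x) {x y : Lb}
    (h1 : R1 A1 x y) : ¬ R2 A2 x y ∧ ¬ R2 A2 y x := by
  obtain ⟨a, k, i⟩ := x
  obtain ⟨b, k', j⟩ := y
  simp only [R1] at h1
  constructor
  · intro h2
    simp only [R2] at h2
    rcases h1 with h1 | h1 | h1 | h1 <;> rcases h2 with h2 | h2 | h2 | h2 <;>
      first
      | omega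
      | exact (hA _ _ h1.2.2).1 h2.2.2
  · intro h2
    simp only [R2] at h2
    rcases h1 with h1 | h1 | h1 | h1 <;> rcases h2 with h2 | h2 | h2 | h2 <;>
      first
      | omega
      | exact (hA _ _ h1.2.2).2 h2.2.2

theorem chain_seg1 {A : Lb → Lb → Prop} {k : ℕ} {s : List Lb} (hs : ∀ x ∈ s, x.1 ≠ 0)
    (hAt : ∀ x y, A x y → x.1 ≠ 0 ∧ y.1 ≠ 0) (hA : s.IsChain A) :
    (c1 k ++ s ++ c1 (k + 1)).IsChain (R1 A) := by
  rw [List.isChain_append, List.isChain_append]
  refine ⟨⟨?_, ?_, ?_⟩, ?_, ?_⟩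
  · simp [c1, R1]
  · exact hA.imp (fun x y h => Or.inr (Or.inr (Or.inr ⟨(hAt x y h).1, (hAt x y h).2, h⟩)))
  · intro x hx y hy
    simp only [c1, List.getLast?_cons_cons, List.getLast?_singleton, Option.mem_def,
      Option.some.injEq] at hx
    subst hx
    right; left
    exact ⟨rfl, rfl, Or.inl (hs y (List.mem_of_mem_head? hy))⟩
  · simp [c1, R1]
  · intro x hx y hy
    simp only [c1, List.head?_cons, Option.mem_def, Option.some.injEq] at hy
    subst hy
    rcases List.eq_nil_or_concat s with rfl | ⟨s', z, rfl⟩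
    · simp only [c1, List.append_nil, List.getLast?_cons_cons, List.getLast?_singleton,
        Option.mem_def, Option.some.injEq] at hx
      subst hx
      right; left
      exact ⟨rfl, rfl, Or.inr ⟨rfl, by simp⟩⟩
    · rw [List.concat_eq_append, ← List.append_assoc, List.getLast?_concat, Option.mem_def,
        Option.some.injEq] at hx
      subst hx
      right; right; left
      exact ⟨rfl, rfl, hs _ (by simp)⟩

theorem chain_seg2 {A : Lb → Lb → Prop} {k : ℕ} {s : List Lb} (hs : ∀ x ∈ s, x.1 ≠ 0)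
    (hAt : ∀ x y, A x y → x.1 ≠ 0 ∧ y.1 ≠ 0) (hA : s.IsChain A) :
    (c2 k ++ s ++ c2 (k + 1)).IsChain (R2 A) := by
  rw [List.isChain_append, List.isChain_append]
  refine ⟨⟨?_, ?_, ?_⟩, ?_, ?_⟩
  · simp [c2, R2]
  · exact hA.imp (fun x y h => Or.inr (Or.inr (Or.inr ⟨(hAt x y h).1, (hAt x y h).2, h⟩)))
  · intro x hx y hy
    simp only [c2, List.getLast?_cons_cons, List.getLast?_singleton, Option.mem_def,
      Option.some.injEq] at hx
    subst hx
    right; left
    exact ⟨rfl, rfl, Or.inl (hs y (List.mem_of_mem_head? hy))⟩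
  · simp [c2, R2]
  · intro x hx y hy
    simp only [c2, List.head?_cons, Option.mem_def, Option.some.injEq] at hy
    subst hy
    rcases List.eq_nil_or_concat s with rfl | ⟨s', z, rfl⟩
    · simp only [c2, List.append_nil, List.getLast?_cons_cons, List.getLast?_singleton,
        Option.mem_def, Option.some.injEq] at hx
      subst hx
      right; left
      exact ⟨rfl, rfl, Or.inr ⟨rfl, by simp⟩⟩
    · rw [List.concat_eq_append, ← List.append_assoc, List.getLast?_concat, Option.mem_def,
        Option.some.injEq] at hx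
      subst hx
      right; right; left
      exact ⟨rfl, rfl, hs _ (by simp)⟩

/-- everything that is needed of the segments -/
structure Segs (A1 A2 : Lb → Lb → Prop) (S1 S2 : List (List Lb)) (K : ℕ) : Prop where
  nodup : S1.flatten.Nodup
  perm : S2.flatten.Perm S1.flatten
  tag : ∀ x ∈ S1.flatten, x.1 ≠ 0
  len1 : S1.length ≤ K
  len2 : S2.length ≤ K
  disj : ∀ x y, A1 x y → ¬ A2 x y ∧ ¬ A2 y x
  tag1 : ∀ x y, A1 x y → x.1 ≠ 0 ∧ y.1 ≠ 0
  tag2 : ∀ x y, A2 x y → x.1 ≠ 0 ∧ y.1 ≠ 0
  chain1 : ∀ s ∈ S1, s.IsChain A1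
  chain2 : ∀ s ∈ S2, s.IsChain A2

variable {A1 A2 : Lb → Lb → Prop} {S1 S2 : List (List Lb)} {K : ℕ}

/-- the number of a label -/
def idx (S1 : List (List Lb)) (K : ℕ) (x : Lb) : ℕ := (join c1 S1 K).idxOf x

/-- the two paths -/
def P1 (S1 : List (List Lb)) (K : ℕ) : List ℕ := (join c1 S1 K).map (idx S1 K)
def P2 (S1 S2 : List (List Lb)) (K : ℕ) : List ℕ := (join c2 S2 K).map (idx S1 K)
/-- the number of vertices -/
def num (S1 : List (List Lb)) (K : ℕ) : ℕ := (join c1 S1 K).length

theorem getD_mem_or (S : List (List Lb)) (k : ℕ) : S.getD k [] = [] ∨ S.getD k [] ∈ S := by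
  by_cases hk : k < S.length
  · right
    rw [List.getD_eq_getElem _ _ hk]
    exact List.getElem_mem hk
  · left
    exact List.getD_eq_default _ _ (by omega)

theorem conn_perm (k : ℕ) : (c2 k).Perm (c1 k) := by
  have h1 : (c1 k).Nodup := by simp [c1]
  have h2 : (c2 k).Nodup := by simp [c2]
  rw [List.perm_ext_iff_of_nodup h2 h1]
  intro x
  simp only [c1, c2, List.mem_cons, List.not_mem_nil, or_false]
  tauto

theorem Segs.join_perm2 (h : Segs A1 A2 S1 S2 K) : (join c2 S2 K).Perm (join c1 S1 K) := by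
  refine ((join_perm c2 S2 h.len2).trans ?_).trans (join_perm c1 S1 h.len1).symm
  refine List.Perm.append ?_ h.perm
  exact List.Perm.flatMap_left _ (fun k _ => conn_perm k)

theorem Segs.nodup1 (h : Segs A1 A2 S1 S2 K) : (join c1 S1 K).Nodup := by
  rw [(join_perm c1 S1 h.len1).nodup_iff, List.nodup_append]
  refine ⟨?_, h.nodup, ?_⟩
  · rw [List.nodup_flatMap]
    refine ⟨fun k _ => by simp [c1], ?_⟩
    refine List.nodup_range.imp ?_
    intro a b hab x hx hx'
    simp only [c1, List.mem_cons, List.not_mem_nil, or_false] at hx hx'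
    have e1 : x.2.1 = a := by rcases hx with h | h | h | h | h | h | h | h | h | h | h | h <;> rw [h]
    have e2 : x.2.1 = b := by rcases hx' with h | h | h | h | h | h | h | h | h | h | h | h <;> rw [h]
    exact hab (e1.symm.trans e2)
  · intro x hx y hy hxy
    subst hxy
    apply h.tag x hy
    rw [List.mem_flatMap] at hx
    obtain ⟨k, _, hx⟩ := hx
    simp only [c1, List.mem_cons, List.not_mem_nil, or_false] at hx
    rcases hx with h | h | h | h | h | h | h | h | h | h | h | h <;> rw [h]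

theorem idx_inj {x y : Lb} (hx : x ∈ join c1 S1 K) (h : idx S1 K x = idx S1 K y) : x = y := by
  unfold idx at h
  rwa [List.idxOf_inj hx] at h

theorem Segs.perm1 (h : Segs A1 A2 S1 S2 K) : (P1 S1 K).Perm (List.range (num S1 K)) := by
  apply perm_range_of
  · simp [P1, num]
  · intro v hv
    unfold P1
    rw [List.mem_map]
    refine ⟨(join c1 S1 K)[v]'hv, List.getElem_mem _, ?_⟩
    unfold idx
    exact h.nodup1.idxOf_getElem v hv

theorem Segs.perm2 (h : Segs A1 A2 S1 S2 K) : (P2 S1 S2 K).Perm (List.range (num S1 K)) :=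
  (h.join_perm2.map _).trans h.perm1

theorem infix_pair_of_map {f : Lb → ℕ} {l : List Lb} {u v : ℕ} (h : [u, v] <:+: l.map f) :
    ∃ x y, [x, y] <:+: l ∧ f x = u ∧ f y = v := by
  obtain ⟨s, t, hst⟩ := h
  have h1 := hst.symm
  rw [List.map_eq_append_iff] at h1
  obtain ⟨l1, l2, rfl, h2, h3⟩ := h1
  rw [List.map_eq_append_iff] at h2
  obtain ⟨l3, l4, rfl, h4, h5⟩ := h2
  match l4, h5 with
  | [x, y], h5 =>
    simp only [List.map_cons, List.map_nil, List.cons.injEq, and_true] at h5
    exact ⟨x, y, ⟨l3, l2, rfl⟩, h5.1, h5.2⟩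

theorem chain_pair {R : Lb → Lb → Prop} {l : List Lb} {x y : Lb} (h : l.IsChain R)
    (hxy : [x, y] <:+: l) : R x y := by
  obtain ⟨s, t, rfl⟩ := hxy
  have := h.left_of_append.right_of_append
  simpa using this

theorem Segs.chainJ1 (h : Segs A1 A2 S1 S2 K) : (join c1 S1 K).IsChain (R1 A1) := by
  refine chain_join c1 S1 K (fun k => by simp [c1]) (by simp [c1, R1]) (fun k _ => ?_)
  rcases getD_mem_or S1 k with h0 | h0
  · rw [h0]
    exact chain_seg1 (by simp) h.tag1 (by simp)
  · exact chain_seg1 (fun x hx => h.tag x (List.mem_flatten.2 ⟨_, h0, hx⟩)) h.tag1 (h.chain1 _ h0)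

theorem Segs.chainJ2 (h : Segs A1 A2 S1 S2 K) : (join c2 S2 K).IsChain (R2 A2) := by
  refine chain_join c2 S2 K (fun k => by simp [c2]) (by simp [c2, R2]) (fun k _ => ?_)
  rcases getD_mem_or S2 k with h0 | h0
  · rw [h0]
    exact chain_seg2 (by simp) h.tag2 (by simp)
  · exact chain_seg2 (fun x hx => h.tag x (h.perm.mem_iff.1 (List.mem_flatten.2 ⟨_, h0, hx⟩)))
      h.tag2 (h.chain2 _ h0)

theorem Segs.edges (h : Segs A1 A2 S1 S2 K) :
    Disjoint (pathGraph (P1 S1 K)).edgeSet (pathGraph (P2 S1 S2 K)).edgeSet := by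
  rw [Set.disjoint_left]
  intro e
  induction e using Sym2.ind with
  | _ u v =>
    intro h1 h2
    rw [SimpleGraph.mem_edgeSet] at h1 h2
    have key1 : ∀ {a b : ℕ}, [a, b] <:+: P1 S1 K → ∃ x y, x ∈ join c1 S1 K ∧ y ∈ join c1 S1 K ∧
        R1 A1 x y ∧ idx S1 K x = a ∧ idx S1 K y = b := by
      intro a b hab
      obtain ⟨x, y, hxy, rfl, rfl⟩ := infix_pair_of_map hab
      exact ⟨x, y, hxy.subset (by simp), hxy.subset (by simp), chain_pair h.chainJ1 hxy, rfl, rfl⟩
    have key2 : ∀ {a b : ℕ}, [a, b] <:+: P2 S1 S2 K → ∃ x y, x ∈ join c1 S1 K ∧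
        y ∈ join c1 S1 K ∧ R2 A2 x y ∧ idx S1 K x = a ∧ idx S1 K y = b := by
      intro a b hab
      obtain ⟨x, y, hxy, rfl, rfl⟩ := infix_pair_of_map hab
      exact ⟨x, y, h.join_perm2.mem_iff.1 (hxy.subset (by simp)),
        h.join_perm2.mem_iff.1 (hxy.subset (by simp)), chain_pair h.chainJ2 hxy, rfl, rfl⟩
    rcases h1.2 with g1 | g1 <;> rcases h2.2 with g2 | g2 <;>
    · obtain ⟨x, y, hx, hy, hr, e1, e2⟩ := key1 g1
      obtain ⟨x', y', hx', hy', hr', e1', e2'⟩ := key2 g2
      first
      | (have a1 : x = x' := idx_inj hx (e1.trans e1'.symm)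
         have a2 : y = y' := idx_inj hy (e2.trans e2'.symm)
         subst a1; subst a2
         exact (R_disj h.disj hr).1 hr')
      | (have a1 : x = y' := idx_inj hx (e1.trans e2'.symm)
         have a2 : y = x' := idx_inj hy (e2.trans e1'.symm)
         subst a1; subst a2
         exact (R_disj h.disj hr).2 hr')

end Pool.Agent.KS6_14.TP
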