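import Pool.Agent.KS6_14.TP.Core

set_option autoImplicit false

/-!
# The global domination number of the assembled paths
-/

namespace Pool.Agent.KS6_14.TP

open Pool.Agent.H641R2.GlobDom

variable {A1 A2 : Lb → Lb → Prop} {S1 S2 : List (List Lb)} {K : ℕ}

/-- the chosen elements of the connectors -/
def Ch (K : ℕ) : Finset Lb :=
  (Finset.range (K + 1) ×ˢ ({0, 2, 5, 6, 9, 11} : Finset ℕ)).image fun p => (0, p.1, p.2)

theorem mem_Ch {x : Lb} : x ∈ Ch K ↔ x.1 = 0 ∧ x.2.1 < K + 1 ∧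
    (x.2.2 = 0 ∨ x.2.2 = 2 ∨ x.2.2 = 5 ∨ x.2.2 = 6 ∨ x.2.2 = 9 ∨ x.2.2 = 11) := by
  obtain ⟨a, k, j⟩ := x
  simp only [Ch, Finset.mem_image, Finset.mem_product, Finset.mem_range, Finset.mem_insert,
    Finset.mem_singleton, Prod.exists, Prod.mk.injEq]
  constructor
  · rintro ⟨a', b', ⟨h1, h2⟩, rfl, rfl, rfl⟩
    exact ⟨rfl, h1, h2⟩
  · rintro ⟨rfl, h1, h2⟩
    exact ⟨k, j, ⟨h1, h2⟩, rfl, rfl, rfl⟩

theorem card_Ch : (Ch K).card ≤ 6 * (K + 1) := by
  refine Finset.card_image_le.trans ?_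
  rw [Finset.card_product, Finset.card_range]
  have : ({0, 2, 5, 6, 9, 11} : Finset ℕ).card = 6 := by decide
  rw [this]
  omega

theorem mem_conn {c : ℕ → List Lb} (S : List (List Lb)) {k : ℕ} (hk : k ≤ K) {x : Lb}
    (hx : x ∈ c k) : x ∈ join c S K := (infix_conn c S hk).subset hx

theorem mem_c1 {k j : ℕ} (hj : j < 12) : ((0, k, j) : Lb) ∈ c1 k := by
  interval_cases j <;> simp [c1]

theorem Segs.upper (h : Segs A1 A2 S1 S2 K) (T : Finset Lb) (hT : ∀ x ∈ T, x ∈ S1.flatten)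
    (h1 : ∀ s ∈ S1, HitW T s) (h2 : ∀ s ∈ S2, HitW T s) :
    globalDominationNumber (num S1 K) [P1 S1 K, P2 S1 S2 K] ≤ 6 * (K + 1) + T.card := by
  rw [gdn_le_iff]
  let D := (Ch K ∪ T).image (idx S1 K)
  have hsub : ∀ x ∈ Ch K ∪ T, x ∈ join c1 S1 K := by
    intro x hx
    rw [Finset.mem_union] at hx
    rcases hx with hx | hx
    · rw [mem_Ch] at hx
      obtain ⟨a, k, j⟩ := x
      obtain ⟨rfl, hk, hj⟩ := hx
      exact mem_conn (c := c1) S1 (K := K) (k := k) (by simp only at hk; omega)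
        (mem_c1 (by simp only at hj; omega))
    · exact (join_perm c1 S1 h.len1).mem_iff.2 (List.mem_append_right _ (hT x hx))
  have hD : ∀ x, x ∈ join c1 S1 K → (idx S1 K x ∈ D ↔ x ∈ Ch K ∪ T) := by
    intro x hx
    constructor
    · intro h'
      obtain ⟨y, hy, hxy⟩ := Finset.mem_image.1 h'
      rw [idx_inj hx hxy.symm]
      exact hy
    · exact fun h' => Finset.mem_image.2 ⟨x, h', rfl⟩
  have hconn : ∀ k ≤ K, ∀ j < 12, (idx S1 K (0, k, j) ∈ D ↔
      (j = 0 ∨ j = 2 ∨ j = 5 ∨ j = 6 ∨ j = 9 ∨ j = 11)) := by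
    intro k hk j hj
    rw [hD _ (mem_conn (c := c1) S1 hk (mem_c1 hj)), Finset.mem_union, mem_Ch]
    constructor
    · rintro (h' | h')
      · exact h'.2.2
      · exact absurd rfl (h.tag _ (hT _ h'))
    · exact fun h' => Or.inl ⟨rfl, by simp only; omega, h'⟩
  have hseg : ∀ x ∈ S1.flatten, (idx S1 K x ∈ D ↔ x ∈ T) := by
    intro x hx
    rw [hD _ ((join_perm c1 S1 h.len1).mem_iff.2 (List.mem_append_right _ hx)), Finset.mem_union,
      mem_Ch]
    constructor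
    · rintro (h' | h')
      · exact absurd h'.1 (h.tag x hx)
      · exact h'
    · exact Or.inr
  have hrun : ∀ (S : List (List Lb)), (∀ x ∈ S.flatten, x ∈ S1.flatten) → (∀ s ∈ S, HitW T s) →
      ∀ k, ∃ e, Run D 0 ((S.getD k []).map (idx S1 K)) e := by
    intro S hS hS' k
    rcases getD_mem_or S k with h0 | h0
    · rw [h0]
      exact ⟨0, by simp [Run]⟩
    · have := run_of_hitW (D := D) (f := idx S1 K) (T := T) (S.getD k []) []
        (fun x hx => hseg x (hS x (List.mem_flatten.2 ⟨_, h0, hx⟩))) (by simp) (by simp)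
        (by simpa using hS' _ h0)
      simpa using this
  refine ⟨D, ?_, ?_, ?_⟩
  · intro v hv
    obtain ⟨x, hx, rfl⟩ := Finset.mem_image.1 hv
    rw [Finset.mem_range]
    exact List.idxOf_lt_length_of_mem (hsub x hx)
  · exact Finset.card_image_le.trans ((Finset.card_union_le _ _).trans
      (Nat.add_le_add_right card_Ch _))
  · intro l hl
    simp only [List.mem_cons, List.not_mem_nil, or_false] at hl
    rcases hl with rfl | rfl
    · refine dominates_of_run h.perm1 ⟨0, by omega, ?_⟩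
      refine run_join c1 S1 K (fun k hk e => ?_) (fun k _ => hrun S1 (fun x hx => hx) h1 k)
      have g := hconn k hk
      have g0 := (g 0 (by norm_num)).2 (by norm_num)
      have g1 := (g 1 (by norm_num)).not.2 (by norm_num)
      have g2 := (g 2 (by norm_num)).2 (by norm_num)
      have g3 := (g 3 (by norm_num)).not.2 (by norm_num)
      have g4 := (g 4 (by norm_num)).not.2 (by norm_num)
      have g5 := (g 5 (by norm_num)).2 (by norm_num)
      have g6 := (g 6 (by norm_num)).2 (by norm_num)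
      have g7 := (g 7 (by norm_num)).not.2 (by norm_num)
      have g8 := (g 8 (by norm_num)).not.2 (by norm_num)
      have g9 := (g 9 (by norm_num)).2 (by norm_num)
      have g10 := (g 10 (by norm_num)).not.2 (by norm_num)
      have g11 := (g 11 (by norm_num)).2 (by norm_num)
      simp only [c1, List.map_cons, List.map_nil, Run, if_pos g0, if_neg g1, if_pos g2, if_neg g3,
        if_neg g4, if_pos g5, if_pos g6, if_neg g7, if_neg g8, if_pos g9, if_neg g10, if_pos g11]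
      norm_num
    · refine dominates_of_run h.perm2 ⟨0, by omega, ?_⟩
      refine run_join c2 S2 K (fun k hk e => ?_)
        (fun k _ => hrun S2 (fun x hx => h.perm.mem_iff.1 hx) h2 k)
      have g := hconn k hk
      have g0 := (g 0 (by norm_num)).2 (by norm_num)
      have g1 := (g 1 (by norm_num)).not.2 (by norm_num)
      have g2 := (g 2 (by norm_num)).2 (by norm_num)
      have g3 := (g 3 (by norm_num)).not.2 (by norm_num)
      have g4 := (g 4 (by norm_num)).not.2 (by norm_num)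
      have g5 := (g 5 (by norm_num)).2 (by norm_num)
      have g6 := (g 6 (by norm_num)).2 (by norm_num)
      have g7 := (g 7 (by norm_num)).not.2 (by norm_num)
      have g8 := (g 8 (by norm_num)).not.2 (by norm_num)
      have g9 := (g 9 (by norm_num)).2 (by norm_num)
      have g10 := (g 10 (by norm_num)).not.2 (by norm_num)
      have g11 := (g 11 (by norm_num)).2 (by norm_num)
      simp only [c2, List.map_cons, List.map_nil, Run, if_pos g0, if_neg g1, if_pos g2, if_neg g3,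
        if_neg g4, if_pos g5, if_pos g6, if_neg g7, if_neg g8, if_pos g9, if_neg g10, if_pos g11]
      norm_num

theorem four {a b c d : Prop} [Decidable a] [Decidable b] [Decidable c] [Decidable d]
    (h1 : a ∨ b ∨ c) (h2 : b ∨ c ∨ d) (h3 : c ∨ a ∨ d) (h4 : a ∨ d ∨ b) :
    2 ≤ (if a then 1 else 0) + (if b then 1 else 0) + (if c then 1 else 0) +
      (if d then 1 else 0) := by
  by_cases ha : a <;> by_cases hb : b <;> by_cases hc : c <;> by_cases hd : d <;>
    simp [ha, hb, hc, hd] at h1 h2 h3 h4 ⊢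

theorem sum12 {p : ℕ → Prop} [DecidablePred p] (a1 : p 0 ∨ p 1 ∨ p 2) (a2 : p 1 ∨ p 2 ∨ p 3)
    (a3 : p 2 ∨ p 0 ∨ p 3) (a4 : p 0 ∨ p 3 ∨ p 1) (b1 : p 4 ∨ p 5 ∨ p 6) (b2 : p 5 ∨ p 6 ∨ p 7)
    (b3 : p 7 ∨ p 4 ∨ p 6) (b4 : p 5 ∨ p 7 ∨ p 4) (d1 : p 8 ∨ p 9 ∨ p 10)
    (d2 : p 9 ∨ p 10 ∨ p 11) (d3 : p 10 ∨ p 8 ∨ p 11) (d4 : p 8 ∨ p 11 ∨ p 9) :
    6 ≤ ∑ j ∈ Finset.range 12, if p j then 1 else 0 := by
  have b3' : p 6 ∨ p 4 ∨ p 7 :=
    b3.elim (fun h => .inr (.inr h)) (fun h => h.elim (fun h => .inr (.inl h)) .inl)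
  have b4' : p 4 ∨ p 7 ∨ p 5 :=
    b4.elim (fun h => .inr (.inr h)) (fun h => h.elim (fun h => .inr (.inl h)) .inl)
  have s1 := four a1 a2 a3 a4
  have s2 := four b1 b2 b3' b4'
  have s3 := four d1 d2 d3 d4
  simp only [Finset.sum_range_succ, Finset.sum_range_zero]
  omega

theorem win1 {P : Lb → Lb → Lb → Prop} {k : ℕ} (h : ∀ x y z, [x, y, z] <:+: c1 k → P x y z) :
    P (0, k, 0) (0, k, 1) (0, k, 2) ∧
    P (0, k, 1) (0, k, 2) (0, k, 3) ∧
    P (0, k, 4) (0, k, 5) (0, k, 6) ∧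
    P (0, k, 5) (0, k, 6) (0, k, 7) ∧
    P (0, k, 8) (0, k, 9) (0, k, 10) ∧
    P (0, k, 9) (0, k, 10) (0, k, 11) := by
  refine ⟨?_, ?_, ?_, ?_, ?_, ?_⟩
  · exact h _ _ _ ⟨[],
      [(0, k, 3), (0, k, 4), (0, k, 5), (0, k, 6), (0, k, 7), (0, k, 8), (0, k, 9), (0, k, 10), (0, k, 11)], by simp [c1]⟩
  · exact h _ _ _ ⟨[(0, k, 0)],
      [(0, k, 4), (0, k, 5), (0, k, 6), (0, k, 7), (0, k, 8), (0, k, 9), (0, k, 10), (0, k, 11)], by simp [c1]⟩
  · exact h _ _ _ ⟨[(0, k, 0), (0, k, 1), (0, k, 2), (0, k, 3)],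
      [(0, k, 7), (0, k, 8), (0, k, 9), (0, k, 10), (0, k, 11)], by simp [c1]⟩
  · exact h _ _ _ ⟨[(0, k, 0), (0, k, 1), (0, k, 2), (0, k, 3), (0, k, 4)],
      [(0, k, 8), (0, k, 9), (0, k, 10), (0, k, 11)], by simp [c1]⟩
  · exact h _ _ _ ⟨[(0, k, 0), (0, k, 1), (0, k, 2), (0, k, 3), (0, k, 4), (0, k, 5), (0, k, 6), (0, k, 7)],
      [(0, k, 11)], by simp [c1]⟩
  · exact h _ _ _ ⟨[(0, k, 0), (0, k, 1), (0, k, 2), (0, k, 3), (0, k, 4), (0, k, 5), (0, k, 6), (0, k, 7), (0, k, 8)],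
      [], by simp [c1]⟩

theorem win2 {P : Lb → Lb → Lb → Prop} {k : ℕ} (h : ∀ x y z, [x, y, z] <:+: c2 k → P x y z) :
    P (0, k, 2) (0, k, 0) (0, k, 3) ∧
    P (0, k, 0) (0, k, 3) (0, k, 1) ∧
    P (0, k, 5) (0, k, 7) (0, k, 4) ∧
    P (0, k, 7) (0, k, 4) (0, k, 6) ∧
    P (0, k, 10) (0, k, 8) (0, k, 11) ∧
    P (0, k, 8) (0, k, 11) (0, k, 9) := by
  refine ⟨?_, ?_, ?_, ?_, ?_, ?_⟩
  · exact h _ _ _ ⟨[],
      [(0, k, 1), (0, k, 5), (0, k, 7), (0, k, 4), (0, k, 6), (0, k, 10), (0, k, 8), (0, k, 11), (0, k, 9)], by simp [c2]⟩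
  · exact h _ _ _ ⟨[(0, k, 2)],
      [(0, k, 5), (0, k, 7), (0, k, 4), (0, k, 6), (0, k, 10), (0, k, 8), (0, k, 11), (0, k, 9)], by simp [c2]⟩
  · exact h _ _ _ ⟨[(0, k, 2), (0, k, 0), (0, k, 3), (0, k, 1)],
      [(0, k, 6), (0, k, 10), (0, k, 8), (0, k, 11), (0, k, 9)], by simp [c2]⟩
  · exact h _ _ _ ⟨[(0, k, 2), (0, k, 0), (0, k, 3), (0, k, 1), (0, k, 5)],
      [(0, k, 10), (0, k, 8), (0, k, 11), (0, k, 9)], by simp [c2]⟩
  · exact h _ _ _ ⟨[(0, k, 2), (0, k, 0), (0, k, 3), (0, k, 1), (0, k, 5), (0, k, 7), (0, k, 4), (0, k, 6)],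
      [(0, k, 9)], by simp [c2]⟩
  · exact h _ _ _ ⟨[(0, k, 2), (0, k, 0), (0, k, 3), (0, k, 1), (0, k, 5), (0, k, 7), (0, k, 4), (0, k, 6), (0, k, 10)],
      [], by simp [c2]⟩

theorem Segs.lower (h : Segs A1 A2 S1 S2 K) {c : ℕ}
    (hc : globalDominationNumber (num S1 K) [P1 S1 K, P2 S1 S2 K] ≤ c) :
    ∃ T : Finset Lb, (∀ x ∈ T, x ∈ S1.flatten) ∧ (∀ s ∈ S1, HitW T s) ∧ (∀ s ∈ S2, HitW T s) ∧
      6 * (K + 1) + T.card ≤ c := by
  classical
  rw [gdn_le_iff] at hc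
  obtain ⟨D, hD, hDc, hdom⟩ := hc
  have hd1 := hdom (P1 S1 K) (by simp)
  have hd2 := hdom (P2 S1 S2 K) (by simp)
  have hw1 : ∀ x y z, [x, y, z] <:+: join c1 S1 K →
      idx S1 K x ∈ D ∨ idx S1 K y ∈ D ∨ idx S1 K z ∈ D := by
    intro x y z hx
    exact hit_of_infix h.perm1 hd1 (by simpa [P1] using hx.map (idx S1 K))
  have hw2 : ∀ x y z, [x, y, z] <:+: join c2 S2 K →
      idx S1 K x ∈ D ∨ idx S1 K y ∈ D ∨ idx S1 K z ∈ D := by
    intro x y z hx
    exact hit_of_infix h.perm2 hd2 (by simpa [P2] using hx.map (idx S1 K))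
  let T := S1.flatten.toFinset.filter (fun x => idx S1 K x ∈ D)
  have hT : ∀ x, x ∈ T ↔ x ∈ S1.flatten ∧ idx S1 K x ∈ D := by
    intro x
    simp only [T, Finset.mem_filter, List.mem_toFinset]
  refine ⟨T, fun x hx => ((hT x).1 hx).1, ?_, ?_, ?_⟩
  · intro s hs x y z hx
    have hm : ∀ w ∈ [x, y, z], w ∈ S1.flatten :=
      fun w hw => List.mem_flatten.2 ⟨s, hs, hx.subset hw⟩
    rcases hw1 x y z (hx.trans (infix_seg c1 S1 h.len1 hs)) with h' | h' | h'
    · exact Or.inl ((hT x).2 ⟨hm x (by simp), h'⟩)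
    · exact Or.inr (Or.inl ((hT y).2 ⟨hm y (by simp), h'⟩))
    · exact Or.inr (Or.inr ((hT z).2 ⟨hm z (by simp), h'⟩))
  · intro s hs x y z hx
    have hm : ∀ w ∈ [x, y, z], w ∈ S1.flatten :=
      fun w hw => h.perm.mem_iff.1 (List.mem_flatten.2 ⟨s, hs, hx.subset hw⟩)
    rcases hw2 x y z (hx.trans (infix_seg c2 S2 h.len2 hs)) with h' | h' | h'
    · exact Or.inl ((hT x).2 ⟨hm x (by simp), h'⟩)
    · exact Or.inr (Or.inl ((hT y).2 ⟨hm y (by simp), h'⟩))
    · exact Or.inr (Or.inr ((hT z).2 ⟨hm z (by simp), h'⟩))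
  · -- counting
    let W := (Finset.range (K + 1) ×ˢ Finset.range 12).filter fun p => idx S1 K (0, p.1, p.2) ∈ D
    have hW : 6 * (K + 1) ≤ W.card := by
      rw [Finset.card_filter, Finset.sum_product]
      have : ∀ k ∈ Finset.range (K + 1),
          6 ≤ ∑ j ∈ Finset.range 12, if idx S1 K (0, k, j) ∈ D then 1 else 0 := by
        intro k hk
        have hk' : k ≤ K := by
          rw [Finset.mem_range] at hk
          omega
        obtain ⟨a1, a2, b1, b2, d1, d2⟩ := win1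
          (P := fun x y z => idx S1 K x ∈ D ∨ idx S1 K y ∈ D ∨ idx S1 K z ∈ D)
          (fun x y z hx => hw1 x y z (hx.trans (infix_conn c1 S1 hk')))
        obtain ⟨a3, a4, b4, b3, d3, d4⟩ := win2
          (P := fun x y z => idx S1 K x ∈ D ∨ idx S1 K y ∈ D ∨ idx S1 K z ∈ D)
          (fun x y z hx => hw2 x y z (hx.trans (infix_conn c2 S2 hk')))
        exact sum12 (p := fun j => idx S1 K (0, k, j) ∈ D) a1 a2 a3 a4 b1 b2 b3 b4 d1 d2 d3 d4
      calc 6 * (K + 1) = ∑ _k ∈ Finset.range (K + 1), 6 := by simp [mul_comm]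
        _ ≤ _ := Finset.sum_le_sum this
    have hDc2 : W.card + T.card ≤ D.card := by
      have e1 : (W.image fun p => idx S1 K (0, p.1, p.2)).card = W.card := by
        apply Finset.card_image_of_injOn
        intro p hp q hq hpq
        simp only [W, Finset.coe_filter, Finset.mem_product, Finset.mem_range, Set.mem_ofPred_eq]
          at hp hq
        have := idx_inj (mem_conn (c := c1) S1 (k := p.1) (by omega) (mem_c1 hp.1.2)) hpq
        simp only [Prod.mk.injEq, true_and] at this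
        exact Prod.ext this.1 this.2
      have e2 : (T.image (idx S1 K)).card = T.card := by
        apply Finset.card_image_of_injOn
        intro p hp q hq hpq
        have hp' := ((hT p).1 hp).1
        exact idx_inj ((join_perm c1 S1 h.len1).mem_iff.2 (List.mem_append_right _ hp')) hpq
      rw [← e1, ← e2, ← Finset.card_union_of_disjoint]
      · apply Finset.card_le_card
        intro v hv
        rw [Finset.mem_union, Finset.mem_image, Finset.mem_image] at hv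
        rcases hv with ⟨p, hp, rfl⟩ | ⟨x, hx, rfl⟩
        · exact (Finset.mem_filter.1 hp).2
        · exact ((hT x).1 hx).2
      · rw [Finset.disjoint_left]
        intro v hv hv'
        rw [Finset.mem_image] at hv hv'
        obtain ⟨p, hp, rfl⟩ := hv
        obtain ⟨x, hx, hxp⟩ := hv'
        have hx' := ((hT x).1 hx).1
        have := idx_inj ((join_perm c1 S1 h.len1).mem_iff.2 (List.mem_append_right _ hx')) hxp
        exact h.tag x hx' (by rw [this])
    omega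

end Pool.Agent.KS6_14.TP
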