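import Pool.Agent.KS6_14.TP.VC
import Pool.Graph.R_seed8.R550.HSGap
import Pool.Graph.R_seed8.H612.CollectPoly
import Pool.Graph.R_seed8.H569R2.Approx

set_option autoImplicit false

/-!
# The reduction is computable in polynomial time; sizes
-/

namespace Pool.Agent.KS6_14.TP

open Pool.Agent.NPC Pool.Agent.H641R2.GlobDom

variable {α : Type} [TEnc α]

theorem poly_inc {E : α → List (ℕ × ℕ)} {v : α → ℕ} (hE : Poly E) (hv : Poly v) :
    Poly (fun a => inc (E a) (v a)) := by
  unfold inc
  have hR : Poly (fun a => List.range (E a).length) := (UPoly.length hE).range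
  fun_prop

theorem poly_gl {v Q : α → ℕ} {l : α → List ℕ} (hv : Poly v) (hQ : Poly Q) (hl : Poly l) :
    Poly (fun a => gl (v a) (Q a) (l a)) := by
  unfold gl
  refine Poly.append ?_ (by fun_prop)
  exact NPC.Poly.flatMap (F := fun a i => [((1, v a, i) : Lb), (2, v a, i), (3, v a, i)]) hl
    (by fun_prop)

theorem poly_fl {v Q : α → ℕ} {l : α → List ℕ} (hv : Poly v) (hQ : Poly Q) (hl : Poly l) :
    Poly (fun a => fl (v a) (Q a) (l a)) := by
  unfold fl
  refine Poly.append ?_ (by fun_prop)
  exact NPC.Poly.flatMap (F := fun a i => [((2, v a, i) : Lb), (3, v a, i)]) hl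
    (by fun_prop)

theorem poly_S1 {E : α → List (ℕ × ℕ)} {N : α → ℕ} (hE : Poly E) (hN : UPoly N) :
    Poly (fun a => S1 (E a) (N a)) := by
  unfold S1
  refine Poly.append ?_ ?_
  · refine NPC.Poly.map (F := fun a v => gl v (E a).length (inc (E a) v)) hN.range ?_
    have h1 : Poly (fun p : α × ℕ => E p.1) := hE.comp (Poly.fst Poly.id)
    exact poly_gl (Poly.snd Poly.id) (Poly.length h1) (poly_inc h1 (Poly.snd Poly.id))
  · exact NPC.Poly.map (F := fun _ i => [((4, i, 0) : Lb)]) (UPoly.length hE).range (by fun_prop)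

theorem poly_S2 {E : α → List (ℕ × ℕ)} {N : α → ℕ} (hE : Poly E) (hN : UPoly N) :
    Poly (fun a => S2 (E a) (N a)) := by
  have h1 : Poly (fun p : α × ℕ => E p.1) := hE.comp (Poly.fst Poly.id)
  unfold S2
  refine Poly.append ?_ ?_
  · refine NPC.Poly.map (F := fun a i => [((1, ((E a).getD i (0, 0)).1, i) : Lb), (4, i, 0),
      (1, ((E a).getD i (0, 0)).2, i)]) (UPoly.length hE).range ?_
    fun_prop
  · refine NPC.Poly.map (F := fun _ x => [x]) ?_ (by fun_prop)
    exact NPC.Poly.flatMap (F := fun a v => fl v (E a).length (inc (E a) v)) hN.range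
      (poly_fl (Poly.snd Poly.id) (Poly.length h1) (poly_inc h1 (Poly.snd Poly.id)))

theorem poly_c1 {k : α → ℕ} (hk : Poly k) : Poly (fun a => c1 (k a)) := by
  unfold c1
  fun_prop

theorem poly_c2 {k : α → ℕ} (hk : Poly k) : Poly (fun a => c2 (k a)) := by
  unfold c2
  fun_prop

theorem poly_join {c : ℕ → List Lb} (hc : ∀ {β : Type} [TEnc β] {k : β → ℕ}, Poly k →
    Poly (fun b => c (k b))) {S : α → List (List Lb)} {K : α → ℕ} (hS : Poly S) (hK : UPoly K) :
    Poly (fun a => join c (S a) (K a)) := by
  unfold join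
  refine Poly.append ?_ (hc hK.toPoly)
  refine NPC.Poly.flatMap (F := fun a k => c k ++ (S a).getD k []) hK.range ?_
  refine Poly.append (hc (Poly.snd Poly.id)) ?_
  exact Poly.getD (d := fun _ => []) (hS.comp (Poly.fst Poly.id)) (Poly.snd Poly.id)
    (NPC.Poly.const _)

theorem uPoly_KK {E : α → List (ℕ × ℕ)} {N : α → ℕ} (hE : Poly E) (hN : UPoly N) :
    UPoly (fun a => KK (E a) (N a)) :=
  UPoly.add (UPoly.length (poly_S1 hE hN)) (UPoly.length (poly_S2 hE hN))

theorem poly_idxOfL {l : α → List Lb} {b : α → Lb} (hl : Poly l) (hb : Poly b) :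
    Poly (fun a => (l a).idxOf (b a)) := by
  have h := Pool.Agent.NPC.H612.poly_idxOf (l := l) (b := b) hl hb
  refine h.congr fun a => ?_
  have e : (instBEqOfDecidableEq : BEq Lb) = instBEqProd := lawful_beq_subsingleton _ _
  rw [e]

/-- the instance -/
def mk (E : List (ℕ × ℕ)) (N : ℕ) : ℕ × (List ℕ × List ℕ) :=
  (num (S1 E N) (KK E N), P1 (S1 E N) (KK E N), P2 (S1 E N) (S2 E N) (KK E N))

theorem poly_mk {E : α → List (ℕ × ℕ)} {N : α → ℕ} (hE : Poly E) (hN : UPoly N) :
    Poly (fun a => mk (E a) (N a)) := by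
  have hS1 := poly_S1 hE hN
  have hS2 := poly_S2 hE hN
  have hK := uPoly_KK hE hN
  have j1 : Poly (fun a => join c1 (S1 (E a) (N a)) (KK (E a) (N a))) :=
    poly_join (fun hk => poly_c1 hk) hS1 hK
  have j2 : Poly (fun a => join c2 (S2 (E a) (N a)) (KK (E a) (N a))) :=
    poly_join (fun hk => poly_c2 hk) hS2 hK
  have key : Poly (fun p : α × Lb => idx (S1 (E p.1) (N p.1)) (KK (E p.1) (N p.1)) p.2) := by
    unfold idx
    exact poly_idxOfL (l := fun p : α × Lb => join c1 (S1 (E p.1) (N p.1)) (KK (E p.1) (N p.1)))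
      (b := fun p : α × Lb => p.2) (j1.comp (Poly.fst Poly.id)) (Poly.snd Poly.id)
  unfold mk num P1 P2
  refine Poly.pair (Poly.length j1) (Poly.pair ?_ ?_)
  · exact NPC.Poly.map (F := fun a x => idx (S1 (E a) (N a)) (KK (E a) (N a)) x) j1 key
  · exact NPC.Poly.map (F := fun a x => idx (S1 (E a) (N a)) (KK (E a) (N a)) x) j2 key

theorem poly_tot {E : α → List (ℕ × ℕ)} {N : α → ℕ} (hE : Poly E) (hN : UPoly N) :
    Poly (fun a => tot (E a) (N a)) := by
  unfold tot
  refine Poly.sum (NPC.Poly.map (F := fun a v => (inc (E a) v).length) hN.range ?_)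
  exact Poly.length (poly_inc (hE.comp (Poly.fst Poly.id)) (Poly.snd Poly.id))

/-! ### Sizes -/

section sizes

variable {E : List (ℕ × ℕ)} {N : ℕ}

theorem inc_length_le (v : ℕ) : (inc E v).length ≤
    ((Finset.range E.length).filter fun i => (E.getD i (0, 0)).1 = v).card +
      ((Finset.range E.length).filter fun i => (E.getD i (0, 0)).2 = v).card := by
  rw [← List.toFinset_card_of_nodup (inc_nodup v)]
  refine le_trans (Finset.card_le_card ?_) (Finset.card_union_le _ _)
  intro i hi
  rw [List.mem_toFinset, mem_inc] at hi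
  simp only [Finset.mem_union, Finset.mem_filter, Finset.mem_range]
  rcases hi.2 with h | h
  · exact Or.inl ⟨hi.1, h⟩
  · exact Or.inr ⟨hi.1, h⟩

theorem tot_le (hE : ∀ e ∈ E, e.1 < N ∧ e.2 < N ∧ e.1 ≠ e.2) : tot E N ≤ 2 * E.length := by
  have hE' : ∀ i < E.length, (E.getD i (0, 0)).1 < N ∧ (E.getD i (0, 0)).2 < N := by
    intro i hi
    rw [List.getD_eq_getElem _ _ hi]
    exact ⟨(hE _ (List.getElem_mem hi)).1, (hE _ (List.getElem_mem hi)).2.1⟩
  unfold tot
  rw [sum_map_range]
  calc ∑ v ∈ Finset.range N, (inc E v).length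
      ≤ ∑ v ∈ Finset.range N,
        (((Finset.range E.length).filter fun i => (E.getD i (0, 0)).1 = v).card +
          ((Finset.range E.length).filter fun i => (E.getD i (0, 0)).2 = v).card) :=
        Finset.sum_le_sum fun v _ => inc_length_le v
    _ = E.length + E.length := by
        rw [Finset.sum_add_distrib,
          ← Finset.card_eq_sum_card_fiberwise (f := fun i => (E.getD i (0, 0)).1)
            (s := Finset.range E.length) (t := Finset.range N)
            (fun i hi => Finset.mem_coe.2 (Finset.mem_range.2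
              (hE' i (Finset.mem_range.1 (Finset.mem_coe.1 hi))).1)),
          ← Finset.card_eq_sum_card_fiberwise (f := fun i => (E.getD i (0, 0)).2)
            (s := Finset.range E.length) (t := Finset.range N)
            (fun i hi => Finset.mem_coe.2 (Finset.mem_range.2
              (hE' i (Finset.mem_range.1 (Finset.mem_coe.1 hi))).2)),
          Finset.card_range]
    _ = 2 * E.length := by ring

theorem KK_le (hE : ∀ e ∈ E, e.1 < N ∧ e.2 < N ∧ e.1 ≠ e.2) :
    KK E N ≤ 3 * N + 6 * E.length := by
  have h1 := tot_le hE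
  have h2 : ((List.range N).flatMap (fun v => fl v E.length (inc E v))).length =
      2 * tot E N + 2 * N := by
    rw [List.length_flatMap]
    unfold tot
    induction N with
    | zero => simp
    | succ N ih =>
      have h3 : ∀ v, (fl v E.length (inc E v)).length = 2 * (inc E v).length + 2 := by
        intro v
        unfold fl
        rw [List.length_append, List.length_flatMap]
        simp [mul_comm]
      rw [sum_map_range, sum_map_range]
      simp only [h3]
      rw [Finset.sum_add_distrib, ← Finset.mul_sum]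
      simp
      ring
  unfold KK S1 S2
  simp only [List.length_append, List.length_map, List.length_range, h2]
  omega

end sizes

/-! ### The conflict graph has bounded degree -/

open Pool.Agent.H243R3.TP (Clause Lit lits occ)
open Pool.Agent.TH688.Mis (litAt cf fg cf_iff mkG_adj)
open Pool.Agent.H688R2.RInd (adj adj_iff)
open Pool.Agent.R550.HS (bE)

theorem occ_eq (φ : List Clause) :
    occ φ = (List.range (3 * φ.length)).map (fun a => (litAt φ a).1) := by
  induction φ with
  | nil => simp [occ]
  | cons c φ ih =>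
    have h1 : occ (c :: φ) = (lits c).map Prod.fst ++ occ φ := by simp [occ]
    rw [h1, ih, List.length_cons, show 3 * (φ.length + 1) = 3 + 3 * φ.length by ring,
      List.range_add (n := 3), List.map_append, List.map_map]
    congr 1
    apply List.map_congr_left
    intro a _
    simp only [Function.comp_apply, litAt]
    rw [show (3 + a) / 3 = a / 3 + 1 by omega, show (3 + a) % 3 = a % 3 by omega]
    simp

theorem deg_le {φ : List Clause} {B : ℕ} (hB : ∀ x, (occ φ).count x ≤ B) (a : ℕ) :
    ((List.range (3 * φ.length)).filter fun b => adj (fg φ) a b).length ≤ 3 + B := by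
  rw [← List.toFinset_card_of_nodup (List.nodup_range.filter _)]
  have h1 : ((List.range (3 * φ.length)).filter fun b => adj (fg φ) a b).toFinset ⊆
      ({3 * (a / 3), 3 * (a / 3) + 1, 3 * (a / 3) + 2} : Finset ℕ) ∪
      (Finset.range (3 * φ.length)).filter (fun b => (litAt φ b).1 = (litAt φ a).1) := by
    intro b hb
    simp only [List.mem_toFinset, List.mem_filter, List.mem_range, adj_iff] at hb
    obtain ⟨hb1, hb2⟩ := hb
    unfold fg at hb2
    rw [mkG_adj, cf_iff, cf_iff] at hb2
    simp only [Finset.mem_union, Finset.mem_insert, Finset.mem_singleton, Finset.mem_filter,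
      Finset.mem_range]
    rcases hb2.2.2.2 with (h | h) | (h | h)
    · left; omega
    · right; exact ⟨hb1, h.1.symm⟩
    · left; omega
    · right; exact ⟨hb1, h.1⟩
  refine (Finset.card_le_card h1).trans ((Finset.card_union_le _ _).trans ?_)
  refine Nat.add_le_add Finset.card_le_three ?_
  refine le_trans (le_of_eq ?_) (hB (litAt φ a).1)
  rw [occ_eq, List.count, List.countP_map, List.countP_eq_length_filter,
    ← List.toFinset_card_of_nodup (List.nodup_range.filter _)]
  congr 1
  ext b
  simp

theorem bE_length_le {φ : List Clause} {B : ℕ} (hB : ∀ x, (occ φ).count x ≤ B) :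
    (bE φ).length ≤ 3 * φ.length * (3 + B) := by
  unfold bE
  rw [List.length_flatMap]
  calc (List.map _ (List.range (3 * φ.length))).sum
      ≤ (List.map (fun _ => 3 + B) (List.range (3 * φ.length))).sum := by
        apply List.sum_le_sum
        intro a _
        rw [List.length_map]
        exact deg_le hB a
    _ = 3 * φ.length * (3 + B) := by simp

end Pool.Agent.KS6_14.TP
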