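import Pool.Agent.KS6_14.TP.Dom

set_option autoImplicit false

/-!
# Vertex cover as global domination of two Hamiltonian paths
-/

namespace Pool.Agent.KS6_14.TP

open Pool.Agent.H641R2.GlobDom

/-- the indices of the edges at `v` -/
def inc (E : List (ℕ × ℕ)) (v : ℕ) : List ℕ :=
  (List.range E.length).filter fun i =>
    decide ((E.getD i (0, 0)).1 = v) || decide ((E.getD i (0, 0)).2 = v)

/-- the gadget of a vertex -/
def gl (v Q : ℕ) (l : List ℕ) : List Lb :=
  l.flatMap (fun i => [(1, v, i), (2, v, i), (3, v, i)]) ++ [(1, v, Q), (2, v, Q)]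

/-- the segments of the first path -/
def S1 (E : List (ℕ × ℕ)) (N : ℕ) : List (List Lb) :=
  (List.range N).map (fun v => gl v E.length (inc E v)) ++
    (List.range E.length).map (fun i => [((4, i, 0) : Lb)])

/-- the vertices of the gadgets which are free on the second path -/
def fl (v Q : ℕ) (l : List ℕ) : List Lb :=
  l.flatMap (fun i => [(2, v, i), (3, v, i)]) ++ [(1, v, Q), (2, v, Q)]

/-- the segments of the second path -/
def S2 (E : List (ℕ × ℕ)) (N : ℕ) : List (List Lb) :=
  (List.range E.length).map (fun i =>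
    [((1, (E.getD i (0, 0)).1, i) : Lb), (4, i, 0), (1, (E.getD i (0, 0)).2, i)]) ++
  ((List.range N).flatMap (fun v => fl v E.length (inc E v))).map (fun x => [x])

variable {E : List (ℕ × ℕ)} {N : ℕ}

theorem mem_inc {v i : ℕ} : i ∈ inc E v ↔ i < E.length ∧
    ((E.getD i (0, 0)).1 = v ∨ (E.getD i (0, 0)).2 = v) := by
  simp [inc]

theorem inc_nodup (v : ℕ) : (inc E v).Nodup := List.nodup_range.filter _

theorem mem_gl {v Q : ℕ} {l : List ℕ} {x : Lb} : x ∈ gl v Q l ↔
    (∃ i ∈ l, x = (1, v, i) ∨ x = (2, v, i) ∨ x = (3, v, i)) ∨ x = (1, v, Q) ∨ x = (2, v, Q) := by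
  simp [gl]

theorem mem_fl {v Q : ℕ} {l : List ℕ} {x : Lb} : x ∈ fl v Q l ↔
    (∃ i ∈ l, x = (2, v, i) ∨ x = (3, v, i)) ∨ x = (1, v, Q) ∨ x = (2, v, Q) := by
  simp [fl]

theorem gl_nodup {v Q : ℕ} {l : List ℕ} (hl : l.Nodup) (hQ : Q ∉ l) : (gl v Q l).Nodup := by
  unfold gl
  rw [List.nodup_append]
  refine ⟨?_, by simp, ?_⟩
  · rw [List.nodup_flatMap]
    refine ⟨fun i _ => by simp, hl.imp ?_⟩
    intro a b hab x hx hx'
    simp only [List.mem_cons, List.not_mem_nil, or_false] at hx hx'
    have e1 : x.2.2 = a := by rcases hx with h | h | h <;> rw [h]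
    have e2 : x.2.2 = b := by rcases hx' with h | h | h <;> rw [h]
    exact hab (e1.symm.trans e2)
  · intro x hx y hy hxy
    subst hxy
    rw [List.mem_flatMap] at hx
    obtain ⟨i, hi, hx⟩ := hx
    simp only [List.mem_cons, List.not_mem_nil, or_false] at hx hy
    have e1 : x.2.2 = i := by rcases hx with h | h | h <;> rw [h]
    have e2 : x.2.2 = Q := by rcases hy with h | h <;> rw [h]
    exact hQ (by rw [← e2, e1]; exact hi)

theorem fl_nodup {v Q : ℕ} {l : List ℕ} (hl : l.Nodup) (hQ : Q ∉ l) : (fl v Q l).Nodup := by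
  unfold fl
  rw [List.nodup_append]
  refine ⟨?_, by simp, ?_⟩
  · rw [List.nodup_flatMap]
    refine ⟨fun i _ => by simp, hl.imp ?_⟩
    intro a b hab x hx hx'
    simp only [List.mem_cons, List.not_mem_nil, or_false] at hx hx'
    have e1 : x.2.2 = a := by rcases hx with h | h <;> rw [h]
    have e2 : x.2.2 = b := by rcases hx' with h | h <;> rw [h]
    exact hab (e1.symm.trans e2)
  · intro x hx y hy hxy
    subst hxy
    rw [List.mem_flatMap] at hx
    obtain ⟨i, hi, hx⟩ := hx
    simp only [List.mem_cons, List.not_mem_nil, or_false] at hx hy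
    have e1 : x.2.2 = i := by rcases hx with h | h <;> rw [h]
    have e2 : x.2.2 = Q := by rcases hy with h | h <;> rw [h]
    exact hQ (by rw [← e2, e1]; exact hi)

theorem Q_notMem_inc (v : ℕ) : E.length ∉ inc E v := by
  rw [mem_inc]
  exact fun h => lt_irrefl _ h.1

theorem mem_S1 {x : Lb} : x ∈ (S1 E N).flatten ↔
    (∃ v < N, x ∈ gl v E.length (inc E v)) ∨ ∃ i < E.length, x = (4, i, 0) := by
  simp only [S1, List.flatten_append, List.mem_append, List.mem_flatten, List.mem_map,
    List.mem_range]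
  constructor
  · rintro (⟨l, ⟨v, hv, rfl⟩, hx⟩ | ⟨l, ⟨i, hi, rfl⟩, hx⟩)
    · exact Or.inl ⟨v, hv, hx⟩
    · exact Or.inr ⟨i, hi, by simpa using hx⟩
  · rintro (⟨v, hv, hx⟩ | ⟨i, hi, rfl⟩)
    · exact Or.inl ⟨_, ⟨v, hv, rfl⟩, hx⟩
    · exact Or.inr ⟨_, ⟨i, hi, rfl⟩, by simp⟩

theorem flatten_map_singleton (l : List Lb) : (l.map (fun x => [x])).flatten = l := by
  induction l with
  | nil => rfl
  | cons a l ih => simp [ih]

theorem mem_S2 {x : Lb} : x ∈ (S2 E N).flatten ↔
    (∃ i < E.length, x = (1, (E.getD i (0, 0)).1, i) ∨ x = (4, i, 0) ∨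
      x = (1, (E.getD i (0, 0)).2, i)) ∨ ∃ v < N, x ∈ fl v E.length (inc E v) := by
  unfold S2
  rw [List.flatten_append, flatten_map_singleton, List.mem_append]
  apply or_congr
  · simp only [List.mem_flatten, List.mem_map, List.mem_range]
    constructor
    · rintro ⟨l, ⟨i, hi, rfl⟩, hx⟩
      exact ⟨i, hi, by simpa using hx⟩
    · rintro ⟨i, hi, hx⟩
      exact ⟨_, ⟨i, hi, rfl⟩, by simpa using hx⟩
  · simp only [List.mem_flatMap, List.mem_range]

theorem mem_iff (hE : ∀ e ∈ E, e.1 < N ∧ e.2 < N ∧ e.1 ≠ e.2) {x : Lb} :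
    x ∈ (S2 E N).flatten ↔ x ∈ (S1 E N).flatten := by
  have hE' : ∀ i < E.length, (E.getD i (0, 0)).1 < N ∧ (E.getD i (0, 0)).2 < N := by
    intro i hi
    rw [List.getD_eq_getElem _ _ hi]
    exact ⟨(hE _ (List.getElem_mem hi)).1, (hE _ (List.getElem_mem hi)).2.1⟩
  rw [mem_S1, mem_S2]
  constructor
  · rintro (⟨i, hi, h | h | h⟩ | ⟨v, hv, h⟩)
    · exact Or.inl ⟨_, (hE' i hi).1, mem_gl.2 (Or.inl ⟨i, mem_inc.2 ⟨hi, Or.inl rfl⟩, Or.inl h⟩)⟩
    · exact Or.inr ⟨i, hi, h⟩
    · exact Or.inl ⟨_, (hE' i hi).2, mem_gl.2 (Or.inl ⟨i, mem_inc.2 ⟨hi, Or.inr rfl⟩, Or.inl h⟩)⟩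
    · refine Or.inl ⟨v, hv, ?_⟩
      rw [mem_gl]
      rw [mem_fl] at h
      rcases h with ⟨i, hi, h⟩ | h
      · exact Or.inl ⟨i, hi, Or.inr h⟩
      · exact Or.inr h
  · rintro (⟨v, hv, h⟩ | ⟨i, hi, h⟩)
    · rw [mem_gl] at h
      rcases h with ⟨i, hi, h | h⟩ | h
      · rw [mem_inc] at hi
        rcases hi.2 with h' | h'
        · exact Or.inl ⟨i, hi.1, Or.inl (by rw [h, h'])⟩
        · exact Or.inl ⟨i, hi.1, Or.inr (Or.inr (by rw [h, h']))⟩
      · exact Or.inr ⟨v, hv, mem_fl.2 (Or.inl ⟨i, hi, h⟩)⟩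
      · exact Or.inr ⟨v, hv, mem_fl.2 (Or.inr h)⟩
    · exact Or.inl ⟨i, hi, Or.inr (Or.inl h)⟩

theorem nodup_S1 : (S1 E N).flatten.Nodup := by
  unfold S1
  rw [List.flatten_append, List.nodup_append]
  refine ⟨?_, ?_, ?_⟩
  · rw [← List.flatMap_def, List.nodup_flatMap]
    refine ⟨fun v _ => gl_nodup (inc_nodup v) (Q_notMem_inc v), List.nodup_range.imp ?_⟩
    intro a b hab x hx hx'
    have key : ∀ c, x ∈ gl c E.length (inc E c) → x.2.1 = c := by
      intro c hc
      rw [mem_gl] at hc
      rcases hc with ⟨i, _, h | h | h⟩ | h | h <;> rw [h]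
    exact hab ((key a hx).symm.trans (key b hx'))
  · rw [← List.flatMap_def, List.nodup_flatMap]
    refine ⟨fun i _ => by simp, List.nodup_range.imp ?_⟩
    intro a b hab x hx hx'
    simp only [List.mem_singleton] at hx hx'
    rw [hx] at hx'
    simp only [Prod.mk.injEq] at hx'
    exact hab hx'.2.1
  · intro x hx y hy hxy
    subst hxy
    simp only [List.mem_flatten, List.mem_map, List.mem_range] at hx hy
    obtain ⟨l, ⟨v, hv, rfl⟩, hx⟩ := hx
    obtain ⟨l, ⟨i, hi, rfl⟩, hy⟩ := hy
    rw [List.mem_singleton] at hy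
    subst hy
    rw [mem_gl] at hx
    simp at hx

theorem nodup_S2 (hE : ∀ e ∈ E, e.1 < N ∧ e.2 < N ∧ e.1 ≠ e.2) : (S2 E N).flatten.Nodup := by
  unfold S2
  rw [List.flatten_append, flatten_map_singleton, List.nodup_append]
  refine ⟨?_, ?_, ?_⟩
  · rw [← List.flatMap_def, List.nodup_flatMap]
    refine ⟨fun i hi => ?_, List.nodup_range.imp ?_⟩
    · rw [List.mem_range] at hi
      have := (hE _ (List.getElem_mem hi)).2.2
      rw [← List.getD_eq_getElem _ (0, 0) hi] at this
      simpa using this
    · intro a b hab x hx hx'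
      simp only [List.mem_cons, List.not_mem_nil, or_false] at hx hx'
      rcases hx with rfl | rfl | rfl <;> rcases hx' with h | h | h <;>
        simp only [Prod.mk.injEq] at h <;> omega
  · rw [List.nodup_flatMap]
    refine ⟨fun v _ => fl_nodup (inc_nodup v) (Q_notMem_inc v), List.nodup_range.imp ?_⟩
    intro a b hab x hx hx'
    have key : ∀ c, x ∈ fl c E.length (inc E c) → x.2.1 = c := by
      intro c hc
      rw [mem_fl] at hc
      rcases hc with ⟨i, _, h | h⟩ | h | h <;> rw [h]
    exact hab ((key a hx).symm.trans (key b hx'))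
  · intro x hx y hy hxy
    subst hxy
    simp only [List.mem_flatten, List.mem_map, List.mem_range, List.mem_flatMap] at hx hy
    obtain ⟨l, ⟨i, hi, rfl⟩, hx⟩ := hx
    obtain ⟨v, hv, hy⟩ := hy
    rw [mem_fl] at hy
    simp only [List.mem_cons, List.not_mem_nil, or_false] at hx
    rcases hy with ⟨i', _, rfl | rfl⟩ | rfl | rfl <;> rcases hx with h | h | h <;>
      simp only [Prod.mk.injEq] at h <;> omega

/-- the number of connectors -/
def KK (E : List (ℕ × ℕ)) (N : ℕ) : ℕ := (S1 E N).length + (S2 E N).length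

/-- consecutive entries of segments of the first path -/
def A1 (x y : Lb) : Prop := (x.1 ≠ 0 ∧ x.1 ≠ 4) ∧ y.1 ≠ 0 ∧ y.1 ≠ 4
/-- consecutive entries of segments of the second path -/
def A2 (x y : Lb) : Prop := x.1 ≠ 0 ∧ y.1 ≠ 0 ∧ (x.1 = 4 ∨ y.1 = 4)

theorem segs (hE : ∀ e ∈ E, e.1 < N ∧ e.2 < N ∧ e.1 ≠ e.2) :
    Segs A1 A2 (S1 E N) (S2 E N) (KK E N) where
  nodup := nodup_S1
  perm := (List.perm_ext_iff_of_nodup (nodup_S2 hE) nodup_S1).2 (fun _ => mem_iff hE)
  tag := by
    intro x hx
    rw [mem_S1] at hx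
    rcases hx with ⟨v, hv, hx⟩ | ⟨i, hi, rfl⟩
    · rw [mem_gl] at hx
      rcases hx with ⟨i, _, rfl | rfl | rfl⟩ | rfl | rfl <;> simp
    · simp
  len1 := Nat.le_add_right _ _
  len2 := Nat.le_add_left _ _
  disj := by
    rintro x y ⟨⟨h1, h2⟩, h3, h4⟩
    exact ⟨fun h => h.2.2.elim h2 h4, fun h => h.2.2.elim h4 h2⟩
  tag1 := fun x y h => ⟨h.1.1, h.2.1⟩
  tag2 := fun x y h => ⟨h.1, h.2.1⟩
  chain1 := by
    intro s hs
    simp only [S1, List.mem_append, List.mem_map, List.mem_range] at hs
    rcases hs with ⟨v, hv, rfl⟩ | ⟨i, hi, rfl⟩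
    · have key : ∀ x ∈ gl v E.length (inc E v), x.1 ≠ 0 ∧ x.1 ≠ 4 := by
        intro x hx
        rw [mem_gl] at hx
        rcases hx with ⟨i, _, rfl | rfl | rfl⟩ | rfl | rfl <;> simp
      exact (List.pairwise_of_forall_mem_list fun x hx y hy => ⟨key x hx, key y hy⟩).isChain
    · simp
  chain2 := by
    intro s hs
    simp only [S2, List.mem_append, List.mem_map, List.mem_range] at hs
    rcases hs with ⟨i, hi, rfl⟩ | ⟨x, hx, rfl⟩
    · simp [A2]
    · simp

/-! ### Hitting sets of the segments -/

theorem hitW_cons {T : Finset Lb} {a : Lb} {l : List Lb} : HitW T (a :: l) ↔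
    (∀ b c, [b, c] <+: l → a ∈ T ∨ b ∈ T ∨ c ∈ T) ∧ HitW T l := by
  constructor
  · intro h
    refine ⟨fun b c hbc => h a b c ?_, fun x y z hx => h x y z ?_⟩
    · obtain ⟨t, rfl⟩ := hbc
      exact ⟨[], t, by simp⟩
    · exact hx.trans (List.suffix_cons a l).isInfix
  · rintro ⟨h1, h2⟩ x y z hx
    rw [List.infix_cons_iff] at hx
    rcases hx with hx | hx
    · rw [List.cons_prefix_cons] at hx
      obtain ⟨rfl, hx⟩ := hx
      exact h1 y z hx
    · exact h2 x y z hx

/-- the gadget begins with the first two vertices of its first block -/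
theorem gl_eq (v Q : ℕ) (l : List ℕ) : ∃ t, gl v Q l = (1, v, l.headD Q) :: (2, v, l.headD Q) :: t := by
  cases l with
  | nil => exact ⟨[], by simp [gl]⟩
  | cons i l => exact ⟨(3, v, i) :: gl v Q l, by simp [gl]⟩

theorem gl_cons (v Q i : ℕ) (l : List ℕ) :
    gl v Q (i :: l) = (1, v, i) :: (2, v, i) :: (3, v, i) :: gl v Q l := by
  simp [gl]

theorem gl_lower {T : Finset Lb} (v Q : ℕ) : ∀ l : List ℕ, HitW T (gl v Q l) →
    l.length ≤ (gl v Q l).countP (fun x => decide (x ∈ T)) ∧
    ((gl v Q l).countP (fun x => decide (x ∈ T)) ≤ l.length → (∀ i ∈ l, (1, v, i) ∉ T) ∧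
      (1, v, l.headD Q) ∉ T ∧ (2, v, l.headD Q) ∉ T)
  | [], _ => by
    refine ⟨by simp, fun h => ?_⟩
    simp only [List.length_nil, Nat.le_zero, List.countP_eq_zero] at h
    refine ⟨by simp, ?_, ?_⟩
    · have := h (1, v, Q) (by simp [gl])
      simpa using this
    · have := h (2, v, Q) (by simp [gl])
      simpa using this
  | i :: l, hW => by
    rw [gl_cons] at hW
    have hW' : HitW T (gl v Q l) := hW.sub ⟨[(1, v, i), (2, v, i), (3, v, i)], [], by simp⟩
    obtain ⟨ih1, ih2⟩ := gl_lower v Q l hW'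
    obtain ⟨t, ht⟩ := gl_eq v Q l
    have w1 := hW (1, v, i) (2, v, i) (3, v, i) ⟨[], gl v Q l, by simp⟩
    have w2 := hW (3, v, i) (1, v, l.headD Q) (2, v, l.headD Q)
      ⟨[(1, v, i), (2, v, i)], t, by rw [ht]; simp⟩
    rw [gl_cons]
    simp only [List.countP_cons, decide_eq_true_eq, List.length_cons, List.mem_cons,
      forall_eq_or_imp, List.headD_cons]
    constructor
    · by_cases a : (1, v, i) ∈ T <;> by_cases b : (2, v, i) ∈ T <;>
        by_cases c : (3, v, i) ∈ T <;> simp only [a, b, c, if_true, if_false, or_self] at w1 ⊢ <;>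
        omega
    · intro hle
      have hc : (gl v Q l).countP (fun x => decide (x ∈ T)) ≤ l.length := by
        by_cases a : (1, v, i) ∈ T <;> by_cases b : (2, v, i) ∈ T <;>
          by_cases c : (3, v, i) ∈ T <;>
          simp only [a, b, c, if_true, if_false, or_self] at w1 hle <;> omega
      obtain ⟨g1, g2, g3⟩ := ih2 hc
      have c : (3, v, i) ∈ T := by
        rcases w2 with h | h | h
        · exact h
        · exact absurd h g2
        · exact absurd h g3
      have ha : (1, v, i) ∉ T := by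
        intro a
        simp only [a, c, if_true] at hle
        omega
      have hb : (2, v, i) ∉ T := by
        intro b
        simp only [b, c, if_true] at hle
        omega
      exact ⟨⟨ha, g1⟩, ha, hb⟩

/-- the hitting set of a vertex cover, as a predicate -/
def pX (X : Finset ℕ) (x : Lb) : Bool :=
  (decide (x.1 = 1) && decide (x.2.1 ∈ X)) || (decide (x.1 = 3) && decide (x.2.1 ∉ X))

theorem gl_hit {T : Finset Lb} {X : Finset ℕ} (v Q : ℕ) : ∀ l : List ℕ,
    (∀ x ∈ gl v Q l, x ∈ T ↔ pX X x = true) → HitW T (gl v Q l)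
  | [], _ => by
    intro x y z h
    have := h.length_le
    simp [gl] at this
  | i :: l, hT => by
    have hT' : ∀ x ∈ gl v Q l, x ∈ T ↔ pX X x = true := by
      intro x hx
      apply hT
      rw [gl_cons]
      simp [hx]
    have ih := gl_hit v Q l hT'
    obtain ⟨t, ht⟩ := gl_eq v Q l
    have h1 : (1, v, i) ∈ T ↔ v ∈ X := by
      rw [hT _ (by rw [gl_cons]; simp)]
      simp [pX]
    have h3 : (3, v, i) ∈ T ↔ v ∉ X := by
      rw [hT _ (by rw [gl_cons]; simp)]
      simp [pX]
    have h4 : (1, v, l.headD Q) ∈ T ↔ v ∈ X := by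
      rw [hT' _ (by rw [ht]; simp)]
      simp [pX]
    rw [gl_cons, hitW_cons, hitW_cons, hitW_cons]
    refine ⟨?_, ?_, ?_, ih⟩
    · intro b c hbc
      simp only [List.cons_prefix_cons] at hbc
      obtain ⟨rfl, rfl, -⟩ := hbc
      rw [h1, h3]
      tauto
    · intro b c hbc
      rw [ht] at hbc
      simp only [List.cons_prefix_cons] at hbc
      obtain ⟨rfl, rfl, -⟩ := hbc
      rw [h4, h3]
      tauto
    · intro b c hbc
      rw [ht] at hbc
      simp only [List.cons_prefix_cons] at hbc
      obtain ⟨rfl, rfl, -⟩ := hbc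
      rw [h4, h3]
      tauto

theorem gl_count {X : Finset ℕ} (v Q : ℕ) (l : List ℕ) :
    (gl v Q l).countP (pX X) = l.length + if v ∈ X then 1 else 0 := by
  induction l with
  | nil =>
    by_cases hv : v ∈ X <;> simp [gl, pX, hv]
  | cons i l ih =>
    rw [gl_cons]
    by_cases hv : v ∈ X <;> simp [ih, pX, hv]

/-- the total number of incidences -/
def tot (E : List (ℕ × ℕ)) (N : ℕ) : ℕ := ((List.range N).map (fun v => (inc E v).length)).sum

theorem countP_S1 (p : Lb → Bool) : (S1 E N).flatten.countP p =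
    ((List.range N).map fun v => (gl v E.length (inc E v)).countP p).sum +
      (List.range E.length).countP (fun i => p (4, i, 0)) := by
  unfold S1
  rw [List.flatten_append, List.countP_append, List.countP_flatten, List.map_map]
  congr 1
  have : ((List.range E.length).map (fun i => [((4, i, 0) : Lb)])).flatten =
      (List.range E.length).map (fun i => ((4, i, 0) : Lb)) := by
    induction List.range E.length with
    | nil => rfl
    | cons a l ih => simp [ih]
  rw [this, List.countP_map]
  rfl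

theorem sum_map_range (N : ℕ) (f : ℕ → ℕ) : ((List.range N).map f).sum = ∑ v ∈ Finset.range N, f v := by
  induction N with
  | zero => simp
  | succ N ih => simp [List.range_succ, Finset.sum_range_succ, ih]

theorem gamma_iff (hE : ∀ e ∈ E, e.1 < N ∧ e.2 < N ∧ e.1 ≠ e.2) (k : ℕ) :
    globalDominationNumber (num (S1 E N) (KK E N)) [P1 (S1 E N) (KK E N),
      P2 (S1 E N) (S2 E N) (KK E N)] ≤ 6 * (KK E N + 1) + tot E N + k ↔
    ∃ X : Finset ℕ, (∀ e ∈ E, e.1 ∈ X ∨ e.2 ∈ X) ∧ X.card ≤ k := by
  classical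
  have hS := segs hE
  constructor
  · intro h
    obtain ⟨T, hT, hT1, hT2, hTc⟩ := hS.lower h
    have hcard : T.card = (S1 E N).flatten.countP (fun x => decide (x ∈ T)) := by
      rw [List.countP_eq_length_filter, ← List.toFinset_card_of_nodup (hS.nodup.filter _)]
      congr 1
      ext x
      simp only [List.mem_toFinset, List.mem_filter, decide_eq_true_eq]
      exact ⟨fun h => ⟨hT x h, h⟩, fun h => h.2⟩
    rw [countP_S1, sum_map_range] at hcard
    have hgl : ∀ v < N, HitW T (gl v E.length (inc E v)) := fun v hv =>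
      hT1 _ (by simp only [S1, List.mem_append, List.mem_map, List.mem_range]
                exact Or.inl ⟨v, hv, rfl⟩)
    let cnt : ℕ → ℕ := fun v => (gl v E.length (inc E v)).countP (fun x => decide (x ∈ T))
    let X0 := (Finset.range N).filter (fun v => (inc E v).length < cnt v)
    let X1 := ((Finset.range E.length).filter (fun i => ((4, i, 0) : Lb) ∈ T)).image
      (fun i => (E.getD i (0, 0)).1)
    refine ⟨X0 ∪ X1, ?_, ?_⟩
    · intro e he
      obtain ⟨i, hi, rfl⟩ := List.getElem_of_mem he
      have hg : E.getD i (0, 0) = E[i] := List.getD_eq_getElem _ _ hi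
      have hmem := hE _ (List.getElem_mem hi)
      have hw := hT2 [((1, (E.getD i (0, 0)).1, i) : Lb), (4, i, 0), (1, (E.getD i (0, 0)).2, i)]
        (by simp only [S2, List.mem_append, List.mem_map, List.mem_range]
            exact Or.inl ⟨i, hi, rfl⟩) _ _ _ (List.infix_refl _)
      rw [hg] at hw
      have port : ∀ v < N, i ∈ inc E v → (1, v, i) ∈ T → v ∈ X0 := by
        intro v hv hi' hp
        obtain ⟨l1, l2⟩ := gl_lower v E.length (inc E v) (hgl v hv)
        simp only [X0, Finset.mem_filter, Finset.mem_range]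
        refine ⟨hv, ?_⟩
        by_contra hcon
        exact (l2 (not_lt.1 hcon)).1 i hi' hp
      rcases hw with h' | h' | h'
      · exact Or.inl (Finset.mem_union_left _
          (port _ hmem.1 (mem_inc.2 ⟨hi, Or.inl (by rw [hg])⟩) h'))
      · refine Or.inl (Finset.mem_union_right _ (Finset.mem_image.2 ⟨i, ?_, by rw [hg]⟩))
        simp only [Finset.mem_filter, Finset.mem_range]
        exact ⟨hi, h'⟩
      · exact Or.inr (Finset.mem_union_left _
          (port _ hmem.2.1 (mem_inc.2 ⟨hi, Or.inr (by rw [hg])⟩) h'))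
    · have e1 : X0.card + tot E N ≤ ∑ v ∈ Finset.range N, cnt v := by
        rw [Finset.card_filter]
        unfold tot
        rw [sum_map_range, ← Finset.sum_add_distrib]
        apply Finset.sum_le_sum
        intro v hv
        have := (gl_lower v E.length (inc E v) (hgl v (Finset.mem_range.1 hv))).1
        change (inc E v).length ≤ cnt v at this
        split_ifs <;> omega
      have e2 : X1.card ≤ (List.range E.length).countP (fun i => decide (((4, i, 0) : Lb) ∈ T)) := by
        refine Finset.card_image_le.trans ?_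
        rw [List.countP_eq_length_filter, ← List.toFinset_card_of_nodup (List.nodup_range.filter _)]
        apply Finset.card_le_card
        intro i hi
        simp only [Finset.mem_filter, Finset.mem_range] at hi
        simp only [List.mem_toFinset, List.mem_filter, List.mem_range, decide_eq_true_eq]
        exact hi
      have e3 := Finset.card_union_le X0 X1
      change T.card = ∑ v ∈ Finset.range N, cnt v + _ at hcard
      omega
  · rintro ⟨X, hX, hXk⟩
    let T : Finset Lb := (S1 E N).flatten.toFinset.filter (fun x => pX X x = true)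
    have hT : ∀ x ∈ (S1 E N).flatten, (x ∈ T ↔ pX X x = true) := by
      intro x hx
      simp only [T, Finset.mem_filter, List.mem_toFinset]
      exact ⟨fun h => h.2, fun h => ⟨hx, h⟩⟩
    refine (hS.upper T ?_ ?_ ?_).trans ?_
    · intro x hx
      simp only [T, Finset.mem_filter, List.mem_toFinset] at hx
      exact hx.1
    · intro s hs
      have hs' := hs
      simp only [S1, List.mem_append, List.mem_map, List.mem_range] at hs
      rcases hs with ⟨v, hv, rfl⟩ | ⟨i, hi, rfl⟩
      · exact gl_hit v _ _ (fun x hx => hT x (List.mem_flatten.2 ⟨_, hs', hx⟩))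
      · intro x y z h
        have := h.length_le
        simp at this
    · intro s hs
      have hs' := hs
      simp only [S2, List.mem_append, List.mem_map, List.mem_range] at hs
      rcases hs with ⟨i, hi, rfl⟩ | ⟨x, hx, rfl⟩
      · intro x y z h
        have h0 := h.eq_of_length rfl
        simp only [List.cons.injEq, and_true] at h0
        obtain ⟨rfl, rfl, rfl⟩ := h0
        have m1 := (mem_iff hE).1 (List.mem_flatten.2 ⟨_, hs',
          show ((1, (E.getD i (0, 0)).1, i) : Lb) ∈ _ by simp⟩)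
        have m2 := (mem_iff hE).1 (List.mem_flatten.2 ⟨_, hs',
          show ((1, (E.getD i (0, 0)).2, i) : Lb) ∈ _ by simp⟩)
        rw [hT _ m1, hT _ m2]
        have := hX _ (List.getElem_mem hi)
        rw [← List.getD_eq_getElem _ (0, 0) hi] at this
        rcases this with h' | h'
        · left
          simp only [pX, decide_true, Bool.true_and, Bool.or_eq_true, decide_eq_true_eq]
          exact Or.inl h'
        · right; right
          simp only [pX, decide_true, Bool.true_and, Bool.or_eq_true, decide_eq_true_eq]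
          exact Or.inl h'
      · intro x y z h
        have := h.length_le
        simp at this
    · have e1 : T.card ≤ (S1 E N).flatten.countP (pX X) := by
        rw [List.countP_eq_length_filter, ← List.toFinset_card_of_nodup (hS.nodup.filter _)]
        apply Finset.card_le_card
        intro x hx
        simp only [T, Finset.mem_filter, List.mem_toFinset] at hx
        simp only [List.mem_toFinset, List.mem_filter]
        exact hx
      rw [countP_S1, sum_map_range] at e1
      have e2 : (List.range E.length).countP (fun i => pX X (4, i, 0)) = 0 := by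
        rw [List.countP_eq_zero]
        intro i _
        simp [pX]
      have e3 : ∑ v ∈ Finset.range N, (gl v E.length (inc E v)).countP (pX X) =
          tot E N + ∑ v ∈ Finset.range N, if v ∈ X then 1 else 0 := by
        unfold tot
        rw [sum_map_range, ← Finset.sum_add_distrib]
        exact Finset.sum_congr rfl fun v _ => gl_count v _ _
      have e4 : (∑ v ∈ Finset.range N, if v ∈ X then 1 else 0) ≤ X.card := by
        rw [← Finset.card_filter]
        apply Finset.card_le_card
        intro v hv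
        exact (Finset.mem_filter.1 hv).2
      omega

end Pool.Agent.KS6_14.TP
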